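import Pool.Agent.W757.BL.Defs

set_option autoImplicit false

namespace W237.BL.ACC

open Set Filter Topology Pool.Agent.W757.BL
open scoped ContDiff

theorem GG_per (x y x' y' : ℝ → ℝ) (L : ℝ) (N : ℕ) (hcv : Cv x y x' y' L) (s : ℝ) :
    Function.Periodic (GG x y L N s) L := by
  intro a
  unfold GG
  congr 1
  refine image_congr fun u _ => ?_
  unfold PP
  refine Finset.sum_congr rfl fun i _ => ?_
  unfold hh
  have e : ∀ r : ℝ, a + L + r = (a + r) + L := fun r => by ring
  simp only [e, hcv.px, hcv.py]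

theorem main (h1 : S_GCT) (h2 : S_GAN) : S_ACC := by
  intro x y x' y' L N t hcv hx hy hN ht hacc
  have hG := h1 x y x' y' L N hcv
  set G : ℝ × ℝ → ℝ := fun p => GG x y L N p.1 p.2 with hGdef
  set E : Set ℝ := {s : ℝ | 0 < s ∧ ∀ a b, GG x y L N s a = GG x y L N s b} with hE
  -- step 1
  have hcl : IsClosed {s : ℝ | ∀ a b, GG x y L N s a = GG x y L N s b} := by
    have : {s : ℝ | ∀ a b, GG x y L N s a = GG x y L N s b} =
        ⋂ a : ℝ, ⋂ b : ℝ, {s | GG x y L N s a = GG x y L N s b} := by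
      ext s; simp
    rw [this]
    refine isClosed_iInter fun a => isClosed_iInter fun b => ?_
    have c1 : Continuous (fun s : ℝ => G (s, a)) :=
      Continuous.comp (g := G) (f := fun s : ℝ => (s, a)) hG (continuous_id.prodMk continuous_const)
    have c2 : Continuous (fun s : ℝ => G (s, b)) :=
      Continuous.comp (g := G) (f := fun s : ℝ => (s, b)) hG (continuous_id.prodMk continuous_const)
    exact isClosed_eq c1 c2
  have htE : ∀ a b, GG x y L N t a = GG x y L N t b := by
    have hmem : t ∈ closure E := by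
      have : t ∈ derivedSet E := hacc
      exact derivedSet_subset_closure E this
    exact closure_minimal (fun s hs => hs.2) hcl hmem
  have han : ∀ a ∈ Icc 0 L, ∀ᶠ p : ℝ × ℝ in 𝓝 (t, a), AnalyticAt ℝ G (p.1, p.2) := by
    intro a _
    have hA : AnalyticAt ℝ G (t, a) := by
      have := h2 x y x' y' L N t hcv hx hy hN ht htE a
      exact this.analyticAt
    exact hA.eventually_analyticAt
  have hev : ∀ᶠ s in 𝓝 t, ∀ a ∈ Icc 0 L, AnalyticAt ℝ G (s, a) :=
    isCompact_Icc.eventually_forall_of_forall_eventually han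
  rw [Metric.eventually_nhds_iff_ball] at hev
  obtain ⟨ε, hε, hball⟩ := hev
  have hfreq : ∃ᶠ s in 𝓝[≠] t, s ∈ E := accPt_iff_frequently_nhdsNE.1 hacc
  have hzero : ∀ a ∈ Icc 0 L, ∀ b ∈ Icc 0 L, ∀ s ∈ Metric.ball t ε,
      GG x y L N s a = GG x y L N s b := by
    intro a ha b hb s hs
    have hA : AnalyticOnNhd ℝ (fun s => GG x y L N s a - GG x y L N s b) (Metric.ball t ε) := by
      intro r hr
      have e3 := (hball r hr a ha).curry_left
      have e4 := (hball r hr b hb).curry_left
      exact e3.sub e4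
    have hU : IsPreconnected (Metric.ball t ε) := by
      rw [Real.ball_eq_Ioo]; exact isPreconnected_Ioo
    have h0 := hA.eqOn_zero_of_preconnected_of_frequently_eq_zero hU (Metric.mem_ball_self hε)
      (hfreq.mono fun r hr => sub_eq_zero.2 (hr.2 a b))
    have := h0 hs
    exact sub_eq_zero.1 this
  have hper := fun s => GG_per x y x' y' L N hcv s
  filter_upwards [Metric.ball_mem_nhds t hε, Ioi_mem_nhds ht] with s hs hs0
  refine ⟨hs0, fun a b => ?_⟩
  obtain ⟨a', ha', ha⟩ := (hper s).exists_mem_Ico₀ hcv.L0 a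
  obtain ⟨b', hb', hb⟩ := (hper s).exists_mem_Ico₀ hcv.L0 b
  rw [ha, hb]
  exact hzero a' ⟨ha'.1, ha'.2.le⟩ b' ⟨hb'.1, hb'.2.le⟩ s hs

end W237.BL.ACC
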