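import Pool.Agent.W757.BL.Defs

set_option autoImplicit false

namespace W237.BL.GCT

open Set Filter Topology Pool.Agent.W757.BL

theorem continuous_cs (L : ℝ) (N : ℕ) (i : ℕ) : Continuous (fun u : Fin N → ℝ => cs L u i) := by
  cases i with
  | zero => exact continuous_const
  | succ i =>
    by_cases h : i < N
    · have : (fun u : Fin N → ℝ => cs L u (i + 1)) = fun u => u ⟨i, h⟩ := by
        funext u; simp [cs, h]
      rw [this]; exact continuous_apply _
    · have : (fun u : Fin N → ℝ => cs L u (i + 1)) = fun _ => L := by
        funext u; simp [cs, h]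
      rw [this]; exact continuous_const

theorem cs_mono (L : ℝ) (N : ℕ) (u : Fin N → ℝ) (hu : u ∈ KK L N) :
    ∀ j i, i ≤ j → j ≤ N + 1 → cs L u i ≤ cs L u j := by
  intro j
  induction j with
  | zero => intro i hi _; have : i = 0 := by omega
            subst this; exact le_refl _
  | succ j ih =>
    intro i hi hj
    rcases Nat.lt_or_ge i (j + 1) with h | h
    · exact (ih i (by omega) (by omega)).trans (hu j (by omega))
    · have : i = j + 1 := by omega
      subst this; exact le_refl _

theorem isCompact_KK (L : ℝ) (N : ℕ) : IsCompact (KK L N) := by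
  have hclosed : IsClosed (KK L N) := by
    have : KK L N = ⋂ i : ℕ, ⋂ _ : i ≤ N, {u | cs L u i ≤ cs L u (i + 1)} := by
      ext u; simp [KK]
    rw [this]
    refine isClosed_iInter fun i => isClosed_iInter fun _ => ?_
    exact isClosed_le (continuous_cs L N i) (continuous_cs L N (i + 1))
  refine (isCompact_Icc (a := fun _ : Fin N => (0 : ℝ)) (b := fun _ => L)).of_isClosed_subset hclosed ?_
  intro u hu
  have h1 : cs L u 0 = 0 := rfl
  have h2 : cs L u (N + 1) = L := by simp [cs]
  constructor
  · intro i
    have h3 : cs L u (i + 1) = u i := by simp [cs]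
    have := cs_mono L N u hu (i + 1) 0 (by omega) (by have := i.2; omega)
    rw [h1, h3] at this
    exact this
  · intro i
    have h3 : cs L u (i + 1) = u i := by simp [cs]
    have := cs_mono L N u hu (N + 1) (i + 1) (by have := i.2; omega) (le_refl _)
    rw [h2, h3] at this
    exact this

theorem main : S_GCT := by
  intro x y x' y' L N hcv
  have hx : Continuous x := continuous_iff_continuousAt.2 fun s => (hcv.dx s).continuousAt
  have hy : Continuous y := continuous_iff_continuousAt.2 fun s => (hcv.dy s).continuousAt
  have key : Continuous (fun q : (ℝ × ℝ) × (Fin N → ℝ) =>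
      PP (fun s => q.1.1 * x s) y L q.1.2 q.2) := by
    unfold PP
    refine continuous_finset_sum _ fun i _ => ?_
    unfold hh
    have c1 : Continuous (fun q : (ℝ × ℝ) × (Fin N → ℝ) => q.1.2 + cs L q.2 i) :=
      (continuous_snd.comp continuous_fst).add ((continuous_cs L N i).comp continuous_snd)
    have c2 : Continuous (fun q : (ℝ × ℝ) × (Fin N → ℝ) => q.1.2 + cs L q.2 (i + 1)) :=
      (continuous_snd.comp continuous_fst).add ((continuous_cs L N (i + 1)).comp continuous_snd)
    have c3 : Continuous (fun q : (ℝ × ℝ) × (Fin N → ℝ) => q.1.1) :=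
      continuous_fst.comp continuous_fst
    exact Real.continuous_sqrt.comp
      ((((c3.mul (hx.comp c2)).sub (c3.mul (hx.comp c1))).pow 2).add
        (((hy.comp c2).sub (hy.comp c1)).pow 2))
  exact (isCompact_KK L N).continuous_sSup key

end W237.BL.GCT
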