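import Pool.Agent.W757.BL.Defs

set_option autoImplicit false

namespace W237.BL.EXT

open Set Filter Topology Pool.Agent.W757.BL

theorem sign (f : ℝ → ℝ) (hf : Continuous f) (a b : ℝ) (hne : ∀ s, a < s → s < b → f s ≠ 0)
    (ξ : ℝ) (hξ : a < ξ ∧ ξ < b) (hpos : 0 < f ξ) : ∀ s, a < s → s < b → 0 < f s := by
  intro s hs1 hs2
  by_contra hcon
  have hle : f s ≤ 0 := not_lt.1 hcon
  have h0 : (0 : ℝ) ∈ uIcc (f s) (f ξ) := by
    rw [mem_uIcc]; left; exact ⟨hle, hpos.le⟩
  obtain ⟨r, hr, hr0⟩ := intermediate_value_uIcc (hf.continuousOn (s := uIcc s ξ)) h0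
  rw [mem_uIcc] at hr
  rcases hr with ⟨h1, h2⟩ | ⟨h1, h2⟩
  · exact hne r (by linarith) (by linarith [hξ.2]) hr0
  · exact hne r (by linarith [hξ.1]) (by linarith) hr0

theorem main : S_EXT := by
  intro x y x' y' L hcv _
  have hL := hcv.L0
  have hy : Continuous y := continuous_iff_continuousAt.2 fun s => (hcv.dy s).continuousAt
  have hper : Function.Periodic y L := hcv.py
  -- minimum
  obtain ⟨b, _, hbmin⟩ := (isCompact_Icc (a := (0 : ℝ)) (b := L)).exists_isMinOn
    (nonempty_Icc.2 hL.le) hy.continuousOn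
  have hb : ∀ s, y b ≤ y s := by
    intro s
    obtain ⟨r, hr, hrs⟩ := hper.exists_mem_Ico₀ hL s
    rw [hrs]
    exact hbmin ⟨hr.1, hr.2.le⟩
  obtain ⟨e, heI, hemax⟩ := (isCompact_Icc (a := b) (b := b + L)).exists_isMaxOn
    (nonempty_Icc.2 (by linarith)) hy.continuousOn
  have he : ∀ s, y s ≤ y e := by
    intro s
    obtain ⟨r, hr, hrs⟩ := hper.exists_mem_Ico hL s b
    rw [hrs]
    exact hemax ⟨hr.1, hr.2.le⟩
  have hdb : y' b = 0 := by
    have : IsLocalMin y b := Filter.Eventually.of_forall hb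
    exact this.hasDerivAt_eq_zero (hcv.dy b)
  have hde : y' e = 0 := by
    have : IsLocalMax y e := Filter.Eventually.of_forall he
    exact this.hasDerivAt_eq_zero (hcv.dy e)
  have hlt : y b < y e := by
    rcases lt_or_eq_of_le (hb e) with h | h
    · exact h
    · exfalso
      have h1 := hcv.conv b (b + L / 2) (by linarith) (by linarith)
      have h2 : y (b + L / 2) = y b := le_antisymm ((he _).trans h.symm.le) (hb _)
      rw [h2, hdb] at h1
      simp at h1
  have hbe : b < e := by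
    rcases lt_or_eq_of_le heI.1 with h | h
    · exact h
    · rw [h] at hlt; exact absurd hlt (lt_irrefl _)
  have heb : e < b + L := by
    rcases lt_or_eq_of_le heI.2 with h | h
    · exact h
    · rw [h, hcv.py] at hlt; exact absurd hlt (lt_irrefl _)
  have hne1 : ∀ s, b < s → s < e → y' s ≠ 0 := by
    intro s hs1 hs2 h0
    have c1 := hcv.conv s (b + L) (by linarith) (by linarith)
    have c2 := hcv.conv s e (by linarith) (by linarith)
    rw [h0, hcv.py] at c1
    rw [h0] at c2
    have d1 : y b - y s ≤ 0 := by linarith [hb s]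
    have d2 : 0 ≤ y e - y s := by linarith [he s]
    rcases le_or_gt 0 (x' s) with hx | hx
    · nlinarith
    · nlinarith
  have hne2 : ∀ s, e < s → s < b + L → y' s ≠ 0 := by
    intro s hs1 hs2 h0
    have c1 := hcv.conv s (b + L) (by linarith) (by linarith)
    have c2 := hcv.conv s (e + L) (by linarith) (by linarith)
    rw [h0, hcv.py] at c1
    rw [h0, hcv.py] at c2
    have d1 : y b - y s ≤ 0 := by linarith [hb s]
    have d2 : 0 ≤ y e - y s := by linarith [he s]
    rcases le_or_gt 0 (x' s) with hx | hx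
    · nlinarith
    · nlinarith
  obtain ⟨ξ1, hξ1, hξ1e⟩ := exists_hasDerivAt_eq_slope y y' hbe hy.continuousOn
    (fun s _ => hcv.dy s)
  obtain ⟨ξ2, hξ2, hξ2e⟩ := exists_hasDerivAt_eq_slope y y' heb hy.continuousOn
    (fun s _ => hcv.dy s)
  refine ⟨b, e, hbe, heb, ?_, ?_, hdb, hde⟩
  · refine sign y' hcv.cy b e hne1 ξ1 hξ1 ?_
    rw [hξ1e]
    exact div_pos (by linarith) (by linarith)
  · intro s hs1 hs2
    have := sign (fun s => - y' s) hcv.cy.neg e (b + L)
      (fun s h1 h2 h3 => hne2 s h1 h2 (neg_eq_zero.1 h3)) ξ2 hξ2 (by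
        show 0 < - y' ξ2
        rw [hξ2e, hcv.py]
        rw [neg_pos]
        exact div_neg_of_neg_of_pos (by linarith) (by linarith)) s hs1 hs2
    have h3 : 0 < - y' s := this
    linarith

end W237.BL.EXT
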