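import Pool.Agent.W757.BL.Defs
import Pool.Agent.H719R3.BG.Ex
import Pool.Agent.H719R3.BG.Rt
import Pool.Agent.H719R3.BG.Seg

set_option autoImplicit false

namespace W237.BL.HIT

open Set Filter Topology Pool.Agent.W757.BL Pool.Agent.H719R3.BG Pool.Agent.H719R3.BG.Rt

theorem cr_pt (x y : ℝ → ℝ) (a b c : ℝ) : cr (pt x y b - pt x y a) (pt x y c - pt x y a) =
    (x b - x a) * (y c - y a) - (y b - y a) * (x c - x a) := by
  rw [cr_eq]
  simp [pt]

theorem main : S_HIT := by
  intro x y x' y' L Ω 𝒦 U K₁ f hcv hcf hT hrange hC hK₁ hU hstep s s' hs hs'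
  rcases eq_or_lt_of_le hs' with heq | hlt
  · refine ⟨K₁, hK₁, subset_rfl, ?_⟩
    rw [heq]
    exact (hstep s).2.2.1
  · have hS := segFacts hT
    obtain ⟨hf1, hf2, hRT, _⟩ := hstep s
    have hfr : ∀ r, pt x y r ∈ frontier Ω := fun r => by rw [← hrange]; exact mem_range_self r
    have hor := hcf.orient s s' (f s) hs hlt hf2
    have hor' : 0 < cr (pt x y s' - pt x y s) (pt x y (f s) - pt x y s) := by
      rw [cr_pt]; exact hor
    have hne : pt x y s ≠ pt x y s' := by
      intro h
      rw [← h, sub_self] at hor'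
      simp [cr] at hor'
    have hca := hC.caustic K₁ hK₁
    have hKΩ : K₁ ⊆ Ω := hca.2.2.2.1
    obtain ⟨yy, hyK, hyseg⟩ := (rtFacts hT hS hca.1 hca.2.1 hca.2.2.1 hca.2.2.2.1).touch _ _ hRT
    have hnotmem : ∀ P ∈ frontier Ω, P ∉ Ω := fun P hP => not_mem hT hP
    have hopen : ∀ z ∈ openSegment ℝ (pt x y s) (pt x y s'), z ∉ K₁ := by
      intro z hz hzK
      rw [openSegment_eq_image_lineMap] at hz
      obtain ⟨r, hr, rfl⟩ := hz
      have h1 := hRT.2.2.2.1 _ hzK
      rw [AffineMap.lineMap_apply, vsub_eq_sub, vadd_eq_add, add_sub_cancel_right,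
        Complex.real_smul, cr_smul_right, cr_antisymm] at h1
      have h2 := hr.1
      nlinarith
    have hseg : ∀ z ∈ segment ℝ (pt x y s) (pt x y s'), z = pt x y s ∨ z = pt x y s' ∨
        z ∈ openSegment ℝ (pt x y s) (pt x y s') := by
      intro z hz
      rw [← insert_endpoints_openSegment] at hz
      simpa using hz
    have hdis : Disjoint (segment ℝ (pt x y s) (pt x y s')) K₁ := by
      rw [Set.disjoint_left]
      intro z hz hzK
      rcases hseg z hz with h | h | h
      · exact hnotmem _ (hfr s) (h ▸ hKΩ hzK)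
      · exact hnotmem _ (hfr s') (h ▸ hKΩ hzK)
      · exact hopen z h hzK
    refine exists_caustic hT hS hC hK₁ (hfr s) (hfr s') hne ?_ hdis ?_
    · intro z hz
      rcases hseg z hz with h | h | h
      · rw [h]; exact hC.front (hfr s)
      · rw [h]; exact hC.front (hfr s')
      · exact hU ⟨hS.seg _ (hfr s) _ (hfr s') hne h, hopen z h⟩
    · refine ⟨yy, hyK, ?_⟩
      rw [openSegment_eq_image_lineMap] at hyseg
      obtain ⟨r, hr, rfl⟩ := hyseg
      rw [AffineMap.lineMap_apply, vsub_eq_sub, vadd_eq_add, add_sub_cancel_right,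
        Complex.real_smul, cr_smul_right]
      exact mul_pos hr.1 hor'

end W237.BL.HIT
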