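import Pool.Agent.W757.BL.Defs

set_option autoImplicit false

namespace W237.BL.TOP

open Set Filter Topology Pool.Agent.W757.BL

theorem main : S_TOP := by
  intro E hE hacc ⟨δ, hδ, hno⟩
  -- no point of the half line is an accumulation point
  have key : ∀ t, 0 < t → ¬ AccPt t (𝓟 E) := by
    intro t0 ht0 hacc0
    -- the set of accumulation points in the half line
    set A : Set ℝ := {t | AccPt t (𝓟 E)} with hA
    have hAcl : IsClosed A := isClosed_derivedSet E
    have hAopen : IsOpen (A ∩ Ioi 0) := by
      rw [isOpen_iff_mem_nhds]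
      rintro t ⟨ht, ht0⟩
      have h1 := hacc t ht0 ht
      have h2 : ∀ᶠ s in 𝓝 t, ∀ᶠ r in 𝓝 s, r ∈ E := h1.eventually_nhds
      filter_upwards [h2, Ioi_mem_nhds ht0] with s hs hs0
      refine ⟨?_, hs0⟩
      show AccPt s (𝓟 E)
      rw [accPt_iff_frequently_nhdsNE]
      exact (hs.filter_mono nhdsWithin_le_nhds).frequently
    have hpre : IsPreconnected (Ioi (0 : ℝ)) := isPreconnected_Ioi
    have hsub : Ioi (0 : ℝ) ⊆ A ∩ Ioi 0 := by
      refine hpre.subset_of_closure_inter_subset hAopen ⟨t0, ht0, hacc0, ht0⟩ ?_
      rintro s ⟨hs1, hs0⟩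
      refine ⟨?_, hs0⟩
      have : closure (A ∩ Ioi 0) ⊆ A := by
        refine closure_minimal inter_subset_left hAcl
      exact this hs1
    have h1 : (δ / 2) ∈ A := (hsub (show (0 : ℝ) < δ / 2 by positivity)).1
    have h2 := (hacc (δ / 2) (by positivity) h1).self_of_nhds
    exact hno (δ / 2) (by positivity) (by linarith) h2
  -- discrete, hence countable
  have hdisc : DiscreteTopology E := by
    rw [discreteTopology_subtype_iff]
    intro t ht
    have h := key t (hE ht)
    unfold AccPt at h
    exact not_neBot.1 h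
  have hl : IsLindelof E := by
    rw [isLindelof_iff_lindelofSpace]
    infer_instance
  exact hl.countable hdisc

end W237.BL.TOP
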